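import Pool.Agent.helper55.FPZ.SpecZ

/-!
# Row fpz:KF
-/

set_option autoImplicit false

namespace Pool.Agent.FPZ

open Matrix Polynomial Pool.Agent.PL Pool.Agent.X4

/-- The matrix of a point. -/
def KF_mx {N : ℕ} {K : Type} (x : Option (Fin N × Fin N) → K) : Matrix (Fin N) (Fin N) K :=
  Matrix.of fun i j => x (some (i, j))

/-- Ring homomorphisms and tensors. -/
theorem KF_map {R S : Type} [CommRing R] [CommRing S] (f : R →+* S) {N : ℕ} (m : ℕ)
    (u : Matrix (Fin N) (Fin N) R) (t : Tn N m R) (I : Fin m → Fin N) :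
    f ((tp u m *ᵥ t) I) = (tp (u.map f) m *ᵥ fun J => f (t J)) I := by
  simp only [Matrix.mulVec, dotProduct, tp, map_sum, map_mul, map_prod, Matrix.map_apply]

theorem KF_inj (hTP : TP_stmt) {K : Type} [Field K] {N m : ℕ} (u : Matrix (Fin N) (Fin N) K)
    (hu : IsUnit u) (y : Tn N m K) (h : tp u m *ᵥ y = 0) : y = 0 := by
  have h1 : u⁻¹ * u = 1 := Matrix.nonsing_inv_mul _ ((Matrix.isUnit_iff_isUnit_det _).1 hu)
  have h2 : tp (u⁻¹ * u) m *ᵥ y = tp u⁻¹ m *ᵥ (tp u m *ᵥ y) := by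
    rw [(hTP N m K u⁻¹ u).1, Matrix.mulVec_mulVec]
  rw [h1, (hTP N m K 1 1).2, Matrix.one_mulVec, h, Matrix.mulVec_zero] at h2
  exact h2

theorem KF_unit {A B : Type} [CommRing A] [CommRing B] (τ : A →+* B) {N : ℕ} (G : Matrix (Fin N) (Fin N) A)
    (hG : IsUnit G) : IsUnit (G.map τ) := by
  have := hG.map (RingHom.mapMatrix τ : Matrix (Fin N) (Fin N) A →+* Matrix (Fin N) (Fin N) B)
  exact this

/-- polynomials over `QB` -/
theorem KF_ev {N : ℕ} (G : Matrix (Fin N) (Fin N) QB) (m : ℕ) (y : Tn N m QB) (K : Type) [Field K]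
    (τ : QB →+* K) (x : Option (Fin N × Fin N) → K) (J : Fin m → Fin N) :
    MvPolynomial.eval₂ τ x ((tp ((Matrix.of fun i j => (MvPolynomial.X (some (i, j)) :
      MvPolynomial (Option (Fin N × Fin N)) QB)) * G.map (MvPolynomial.C (R := QB))) m *ᵥ
        fun J => MvPolynomial.C (y J)) J) = (tp (KF_mx x * G.map τ) m *ᵥ tu τ y) J := by
  have g1 := KF_map (MvPolynomial.eval₂Hom τ x) m ((Matrix.of fun i j => (MvPolynomial.X (some (i, j)) :
      MvPolynomial (Option (Fin N × Fin N)) QB)) * G.map (MvPolynomial.C (R := QB)))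
        (fun J => MvPolynomial.C (y J)) J
  rw [MvPolynomial.coe_eval₂Hom] at g1
  refine g1.trans ?_
  have g2 : (((Matrix.of fun i j => (MvPolynomial.X (some (i, j)) :
      MvPolynomial (Option (Fin N × Fin N)) QB)) * G.map (MvPolynomial.C (R := QB))).map
        (MvPolynomial.eval₂ τ x)) = KF_mx x * G.map τ := by
    have g3 := Matrix.map_mul (L := (Matrix.of fun i j => (MvPolynomial.X (some (i, j)) :
      MvPolynomial (Option (Fin N × Fin N)) QB))) (M := G.map (MvPolynomial.C (R := QB)))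
      (f := MvPolynomial.eval₂Hom τ x)
    rw [MvPolynomial.coe_eval₂Hom] at g3
    rw [g3]
    refine congrArg₂ _ ?_ ?_
    · funext i j
      simp [Matrix.map_apply, KF_mx]
    · funext i j
      simp [Matrix.map_apply]
  rw [g2]
  refine congrFun (congrArg _ ?_) J
  funext J'
  simp [tu]

/-- The theorem. -/
theorem KF (hKD : KD_stmt) (hKE : KE_stmt) (hTP : TP_stmt) : KF_stmt := by
  classical
  intro F _ _ N E D hcont T hT e hb G hG
  -- the generic matrix
  obtain ⟨X, hX⟩ : ∃ X : Matrix (Fin N) (Fin N) (MvPolynomial (Option (Fin N × Fin N)) ℚ),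
      X = Matrix.of fun i j => MvPolynomial.X (some (i, j)) := ⟨_, rfl⟩
  obtain ⟨pl, hpl⟩ : ∃ pl : (m : ℕ) → Tn N m ℚ → (Fin m → Fin N) →
      MvPolynomial (Option (Fin N × Fin N)) ℚ,
      pl = fun m t I => (tp X m *ᵥ fun J => MvPolynomial.C (t J)) I := ⟨_, rfl⟩
  have hev : ∀ (K : Type) [Field K] [CharZero K] (x : Option (Fin N × Fin N) → K) (m : ℕ)
      (t : Tn N m ℚ) (I : Fin m → Fin N), MvPolynomial.aeval x (pl m t I) =
        (tp (KF_mx x) m *ᵥ up K t) I := by
    intro K _ _ x m t I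
    have g1 := KF_map (MvPolynomial.aeval x : MvPolynomial (Option (Fin N × Fin N)) ℚ →ₐ[ℚ] K).toRingHom
      m X (fun J => MvPolynomial.C (t J)) I
    rw [hpl]
    refine g1.trans ?_
    have g2 : X.map (MvPolynomial.aeval x : MvPolynomial (Option (Fin N × Fin N)) ℚ →ₐ[ℚ] K).toRingHom =
        (KF_mx x) := by
      rw [hX]
      funext i j
      simp [Matrix.map_apply, KF_mx]
    rw [g2]
    have g3 : (fun J => (MvPolynomial.aeval x : MvPolynomial (Option (Fin N × Fin N)) ℚ →ₐ[ℚ] K).toRingHom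
        (MvPolynomial.C (t J))) = up K t := by
      funext J
      simp [up]
    rw [g3]
  obtain ⟨dp, hdp⟩ : ∃ dp : MvPolynomial (Option (Fin N × Fin N)) ℚ,
      dp = MvPolynomial.X none * X.det - 1 := ⟨_, rfl⟩
  have hdet : ∀ (K : Type) [Field K] [CharZero K] (x : Option (Fin N × Fin N) → K),
      MvPolynomial.aeval x dp =
        x none * (KF_mx x).det - 1 := by
    intro K _ _ x
    rw [hdp, map_sub, map_mul, map_one, MvPolynomial.aeval_X]
    have g1 : MvPolynomial.aeval x X.det =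
        (KF_mx x).det := by
      rw [AlgHom.map_det]
      refine congrArg Matrix.det ?_
      rw [hX]
      funext i j
      simp [AlgHom.mapMatrix_apply, Matrix.map_apply, KF_mx]
    rw [g1]
  -- relations
  let Is : Set (MvPolynomial (Option (Fin N × Fin N)) ℚ) :=
    {f | f = dp ∨ ∃ m, ∃ t ∈ T m, ∃ s ∈ D.Hodge e m, D.cls e m s = D.cls D.base m t ∧
      ∃ I, f = pl m t I - MvPolynomial.C (s I)}
  have hzero : ∀ (K : Type) [Field K] [CharZero K] (x : Option (Fin N × Fin N) → K),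
      (∀ f ∈ Is, MvPolynomial.aeval x f = 0) → Cmp D e T (KF_mx x) := by
    intro K _ _ x hx
    constructor
    · have g1 := hx dp (Or.inl rfl)
      rw [hdet K x, sub_eq_zero] at g1
      rw [Matrix.isUnit_iff_isUnit_det]
      exact IsUnit.of_mul_eq_one _ (by rw [mul_comm]; exact g1)
    · intro m t ht s hs hcl
      funext I
      have g1 := hx (pl m t I - MvPolynomial.C (s I)) (Or.inr ⟨m, t, ht, s, hs, hcl, I, rfl⟩)
      rw [map_sub, hev K x m t I, sub_eq_zero] at g1
      rw [g1]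
      simp [up]
  obtain ⟨H, hH, hH'⟩ := hKE (Option (Fin N × Fin N)) Is
  refine ⟨H.image fun y => KF_mx y, ?_, ?_⟩
  · intro g hg
    obtain ⟨y, hy, rfl⟩ := Finset.mem_image.mp hg
    exact hzero QB y (hH y hy)
  · intro K _ _ τ c hc
    have hcm : KF_mx (fun o : Option (Fin N × Fin N) =>
          o.elim (c.det)⁻¹ fun ij => c ij.1 ij.2) = c := by
        funext i j
        rfl
    obtain ⟨y₀, hy₀, K', iK', cK', τ', ξ, hξ, htr⟩ := hH' K τ (fun o => o.elim (c.det)⁻¹ fun ij => c ij.1 ij.2) (by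
      intro f hf
      rcases hf with rfl | ⟨m, t, ht, s, hs, hcl, I, rfl⟩
      · rw [hdet K, hcm]
        have g2 : c.det ≠ 0 := ((Matrix.isUnit_iff_isUnit_det _).1 hc.1).ne_zero
        show (c.det)⁻¹ * c.det - 1 = 0
        rw [inv_mul_cancel₀ g2, sub_self]
      · rw [map_sub, hev K, hcm, hc.2 m t ht s hs hcl]
        simp [up])
    refine ⟨_, Finset.mem_image_of_mem _ hy₀, ?_⟩
    intro m y a hy hGI hWt
    have hg : Cmp D e T (KF_mx y₀) := hzero QB y₀ (hH y₀ hy₀)
    have hΞ : Cmp D e T (KF_mx ξ) := hzero K' ξ hξ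
    obtain ⟨v, μ, hv, hμ, hvμ, hW0⟩ := hKD F N E D hcont T hT e hb G hG K' τ' (KF_mx ξ) hΞ m y a hy hGI hWt
    obtain ⟨J₀, hJ₀⟩ := Function.ne_iff.1 hv
    have hJ₀' : v J₀ ≠ 0 := hJ₀
    -- the tensors
    have hP : ∀ J, (tp (c * G.map τ) m *ᵥ tu τ y) J * τ (v J₀) = (tp (c * G.map τ) m *ᵥ tu τ y) J₀ * τ (v J) ∧
        (tp (KF_mx y₀ * G) m *ᵥ y) J * v J₀ = (tp (KF_mx y₀ * G) m *ᵥ y) J₀ * v J := by
      intro J
      have h1 := htr ((tp ((Matrix.of fun i j => (MvPolynomial.X (some (i, j)) :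
        MvPolynomial (Option (Fin N × Fin N)) QB)) * G.map (MvPolynomial.C (R := QB))) m *ᵥ
        fun J => MvPolynomial.C (y J)) J * MvPolynomial.C (v J₀) - (tp ((Matrix.of fun i j => (MvPolynomial.X (some (i, j)) :
        MvPolynomial (Option (Fin N × Fin N)) QB)) * G.map (MvPolynomial.C (R := QB))) m *ᵥ
        fun J => MvPolynomial.C (y J)) J₀ * MvPolynomial.C (v J)) (by
          rw [MvPolynomial.eval₂_sub, MvPolynomial.eval₂_mul, MvPolynomial.eval₂_mul, KF_ev, KF_ev, hvμ,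
            MvPolynomial.eval₂_C, MvPolynomial.eval₂_C]
          show μ * τ' (v J) * τ' (v J₀) - μ * τ' (v J₀) * τ' (v J) = 0
          ring)
      obtain ⟨h2, h3⟩ := h1
      rw [MvPolynomial.eval₂_sub, MvPolynomial.eval₂_mul, MvPolynomial.eval₂_mul, KF_ev, KF_ev,
            MvPolynomial.eval₂_C, MvPolynomial.eval₂_C, hcm, sub_eq_zero] at h2
      have h4 : MvPolynomial.eval₂ (RingHom.id QB) y₀ ((tp ((Matrix.of fun i j => (MvPolynomial.X (some (i, j)) :
        MvPolynomial (Option (Fin N × Fin N)) QB)) * G.map (MvPolynomial.C (R := QB))) m *ᵥ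
        fun J => MvPolynomial.C (y J)) J * MvPolynomial.C (v J₀) - (tp ((Matrix.of fun i j => (MvPolynomial.X (some (i, j)) :
        MvPolynomial (Option (Fin N × Fin N)) QB)) * G.map (MvPolynomial.C (R := QB))) m *ᵥ
        fun J => MvPolynomial.C (y J)) J₀ * MvPolynomial.C (v J)) = 0 := h3
      rw [MvPolynomial.eval₂_sub, MvPolynomial.eval₂_mul, MvPolynomial.eval₂_mul, KF_ev, KF_ev,
            MvPolynomial.eval₂_C, MvPolynomial.eval₂_C, sub_eq_zero] at h4
      refine ⟨h2, ?_⟩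
      exact h4
    have hP1 : W0 (dz D G) a → ∀ J, (tp (c * G.map τ) m *ᵥ tu τ y) J = τ (v J) ∧
        (tp (KF_mx y₀ * G) m *ᵥ y) J = v J := by
      intro h0 J
      have hμ1 := hW0 h0
      have h1 := htr ((tp ((Matrix.of fun i j => (MvPolynomial.X (some (i, j)) :
        MvPolynomial (Option (Fin N × Fin N)) QB)) * G.map (MvPolynomial.C (R := QB))) m *ᵥ
        fun J => MvPolynomial.C (y J)) J - MvPolynomial.C (v J)) (by
          rw [MvPolynomial.eval₂_sub, KF_ev, hvμ, MvPolynomial.eval₂_C, hμ1]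
          show 1 * τ' (v J) - τ' (v J) = 0
          ring)
      obtain ⟨h2, h3⟩ := h1
      rw [MvPolynomial.eval₂_sub, KF_ev, MvPolynomial.eval₂_C, hcm, sub_eq_zero] at h2
      have h4 : MvPolynomial.eval₂ (RingHom.id QB) y₀ ((tp ((Matrix.of fun i j => (MvPolynomial.X (some (i, j)) :
        MvPolynomial (Option (Fin N × Fin N)) QB)) * G.map (MvPolynomial.C (R := QB))) m *ᵥ
        fun J => MvPolynomial.C (y J)) J - MvPolynomial.C (v J)) = 0 := h3
      rw [MvPolynomial.eval₂_sub, KF_ev, MvPolynomial.eval₂_C, sub_eq_zero] at h4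
      exact ⟨h2, h4⟩
    obtain ⟨P, hPd⟩ : ∃ P, P = tp (c * G.map τ) m *ᵥ tu τ y := ⟨_, rfl⟩
    obtain ⟨R, hRd⟩ : ∃ R, R = tp (KF_mx y₀ * G) m *ᵥ y := ⟨_, rfl⟩
    have hτv : τ (v J₀) ≠ 0 := (map_ne_zero τ).2 hJ₀'
    have hP0 : P J₀ ≠ 0 := by
      intro h0
      have h1 : tp (c * G.map τ) m *ᵥ tu τ y = 0 := by
        funext J
        have h2 := (hP J).1
        rw [← hPd, h0, zero_mul] at h2
        rw [← hPd]
        exact (mul_eq_zero.1 h2).resolve_right hτv
      have h3 := KF_inj hTP _ (hc.1.mul (KF_unit τ G hG.1)) _ h1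
      apply hy
      funext J
      have h4 := congrFun h3 J
      exact (map_eq_zero τ).1 h4
    have hR0 : R J₀ ≠ 0 := by
      intro h0
      have h1 : tp (KF_mx y₀ * G) m *ᵥ y = 0 := by
        funext J
        have h2 := (hP J).2
        rw [← hRd, h0, zero_mul] at h2
        rw [← hRd]
        exact (mul_eq_zero.1 h2).resolve_right hJ₀'
      exact hy (KF_inj hTP _ (hg.1.mul hG.1) _ h1)
    have hmap : ∀ J, (tp ((KF_mx y₀).map τ * G.map τ) m *ᵥ tu τ y) J = τ (R J) := by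
      intro J
      rw [hRd, KF_map τ m (KF_mx y₀ * G) y J, Matrix.map_mul]
      rfl
    have hτR : τ (R J₀) ≠ 0 := (map_ne_zero τ).2 hR0
    refine ⟨P J₀ / τ (R J₀), div_ne_zero hP0 hτR, ?_, ?_⟩
    · funext J
      rw [← hPd, Pi.smul_apply, hmap, smul_eq_mul]
      have h1 := (hP J).1
      have h2 := congrArg τ (hP J).2
      rw [← hPd] at h1
      rw [← hRd, map_mul, map_mul] at h2
      have h3 : τ (R J) = τ (R J₀) * τ (v J) / τ (v J₀) := by
        rw [eq_div_iff hτv]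
        exact h2
      have h4 : P J = P J₀ * τ (v J) / τ (v J₀) := by
        rw [eq_div_iff hτv]
        exact h1
      rw [h3, h4]
      field_simp
    · intro h0
      have h1 := (hP1 h0 J₀).1
      have h2 := (hP1 h0 J₀).2
      rw [← hPd] at h1
      rw [← hRd] at h2
      rw [h1, h2]
      exact div_self hτv

end Pool.Agent.FPZ
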